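import Pool.Agent.Lib_MP_cc69c8_ins.Core

/-!
# Cardinalities of almost disjoint families which are not selectively (a)

`κ_ssa = 𝔡`, and every cardinal between `𝔡` and the continuum is the cardinality of an almost disjoint
family which is not selectively (a).

The definitions (`IsDominating`, `dominatingNumber`, `IsAD`, `Psi` with its topology, `star`,
`SelectivelyA`) are in `Pool.Agent.Lib_MP_cc69c8_ins.Defs`.

Sketch of the proof. Let `D` be a dominating family of the given size, closed under the addition of
constants up to finite changes; take the columns `{m} × ω` and the graphs of `k ↦ code (g ↾ (k + 1))`,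
`g ∈ D`. The cover `𝒰 n` consists of the columns and of the graphs without their first `n` points. A
closed discrete subset of `ω` is bounded on each column; if the graph of `g` is everywhere above the
bounds, its point is not covered.
-/

set_option autoImplicit false

open Pool.Agent.SelA

namespace Pool.Agent.Results.MP_cc69c8_lc.Cardinalities

/-- (1) `κ_ssa = 𝔡`: the least cardinality of an almost disjoint family which is not selectively (a)
is the dominating number; there is such a family.

(2) For every cardinal `κ` from `𝔡` to the continuum there is an almost disjoint family of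
cardinality `κ` which is not selectively (a). So for each `κ ≤ 𝔠`: all almost disjoint families of
cardinality `κ` are selectively (a) if and only if `κ < 𝔡`. -/
theorem result :
    (∃ A : Set (Set ℕ), IsAD A ∧ ¬ SelectivelyA (Psi A) ∧ Cardinal.mk A = dominatingNumber) ∧
    sInf {κ : Cardinal.{0} | ∃ A : Set (Set ℕ), IsAD A ∧ ¬ SelectivelyA (Psi A) ∧
      Cardinal.mk A = κ} = dominatingNumber ∧
    (∀ κ : Cardinal.{0}, dominatingNumber ≤ κ → κ ≤ Cardinal.continuum →
      ∃ A : Set (Set ℕ), IsAD A ∧ ¬ SelectivelyA (Psi A) ∧ Cardinal.mk A = κ) ∧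
    ∀ κ : Cardinal.{0}, κ ≤ Cardinal.continuum →
      ((∀ A : Set (Set ℕ), IsAD A → Cardinal.mk A = κ → SelectivelyA (Psi A)) ↔
        κ < dominatingNumber) := by
  have h2 : ∀ κ : Cardinal.{0}, dominatingNumber ≤ κ → κ ≤ Cardinal.continuum →
      ∃ A : Set (Set ℕ), IsAD A ∧ ¬ SelectivelyA (Psi A) ∧ Cardinal.mk A = κ := by
    intro κ h1 h2
    obtain ⟨D, hD, hDc⟩ := exists_dom
    have h3 : κ ≤ Cardinal.mk (ℕ → ℕ) := by
      refine h2.trans (le_of_eq ?_)
      simp
    obtain ⟨S, hS⟩ := Cardinal.le_mk_iff_exists_set.mp h3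
    have hDS : IsDominating (D ∪ S) := by
      intro f
      obtain ⟨g, hg, h⟩ := hD f
      exact ⟨g, Or.inl hg, h⟩
    have hinf := dom_infinite hDS
    have hκ : Cardinal.aleph0 ≤ κ := by
      have h4 := dom_infinite hD
      have h5 : Cardinal.aleph0 ≤ Cardinal.mk D := by
        rw [Cardinal.aleph0_le_mk_iff]
        exact h4.to_subtype
      exact (h5.trans (le_of_eq hDc)).trans h1
    have hcard : Cardinal.mk (D ∪ S : Set (ℕ → ℕ)) = κ := by
      apply le_antisymm
      · refine (Cardinal.mk_union_le _ _).trans ?_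
        rw [hDc, hS]
        exact Cardinal.add_le_of_le hκ h1 le_rfl
      · rw [← hS]
        exact Cardinal.mk_le_mk_of_subset Set.subset_union_right
    exact ⟨fam (shifts (D ∪ S)), fam_isAD _, not_sel hDS, (mk_fam hinf).trans hcard⟩
  have hc : dominatingNumber ≤ Cardinal.continuum := by
    obtain ⟨D, hD, hDc⟩ := exists_dom
    rw [← hDc]
    refine (Cardinal.mk_set_le D).trans (le_of_eq ?_)
    simp
  have h0 := h2 _ le_rfl hc
  have hlt : ∀ A : Set (Set ℕ), IsAD A → ¬ SelectivelyA (Psi A) →
      dominatingNumber ≤ Cardinal.mk A := by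
    intro A hA hs
    by_contra hcon
    exact hs (sel_of_lt hA (not_le.mp hcon))
  refine ⟨h0, ?_, h2, fun κ hκ => ⟨fun h => ?_, fun h A hA hAκ => ?_⟩⟩
  · apply le_antisymm
    · exact csInf_le' h0
    · refine le_csInf ⟨_, h0⟩ ?_
      rintro κ ⟨A, hA, hs, rfl⟩
      exact hlt A hA hs
  · by_contra hcon
    obtain ⟨A, hA, hs, hAκ⟩ := h2 κ (not_lt.mp hcon) hκ
    exact hs (h A hA hAκ)
  · exact sel_of_lt hA (by rw [hAκ]; exact h)

end Pool.Agent.Results.MP_cc69c8_lc.Cardinalities
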